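import Pool.Agent.Q57.TP.Mak

/-! # The Campana-Peternell inequality from the equality of the Kodaira and numerical dimensions -/

set_option autoImplicit false
set_option linter.unusedSectionVars false

open FF Pool.Agent.W602.GT Pool.Agent.Q57.TP

namespace Pool.Agent.Q35.CP

section

variable {K : Type} [Field K] [Algebra ℂ K] (N : ℕ)

/-- `f` is a section of `m L + A` -/
def FSec (L : Place ℂ K → ℚ) (S : Finset K) (m : ℕ) (f : K) : Prop :=
  ∀ P : Place ℂ K, Divisorial N P → f = 0 ∨ ∃ s ∈ S, s ≠ 0 ∧ (P.ord s : ℚ) - m * L P ≤ P.ord f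

/-- `κ (L) ≥ h` -/
def FKod (L : Place ℂ K → ℚ) (h : ℕ) : Prop :=
  ∃ k : ℕ, 0 < k ∧ ∃ f : Fin (h + 1) → K, f 0 ≠ 0 ∧
    AlgebraicIndependent ℂ (fun b : Fin h => f b.succ / f 0) ∧ ∀ b, FSec N L {1} k (f b)

/-- `L` is pseudo-effective -/
def FPsef (L : Place ℂ K → ℚ) : Prop :=
  ∃ S : Finset K, ∀ M : ℕ, ∃ f : K, f ≠ 0 ∧ FSec N L S M f

/-- `ν (L) ≤ h` -/
def FNum (L : Place ℂ K → ℚ) (h : ℕ) : Prop :=
  ∀ S : Finset K, ∃ C : ℕ, ∀ m M : ℕ, 1 ≤ m →
    (∃ f : Fin M → K, LinearIndependent ℂ f ∧ ∀ l, FSec N L S m (f l)) → M ≤ C * m ^ h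

/-- `K + Δ - L` is pseudo-effective -/
def Rest (δ L : Place ℂ K → ℚ) : Prop :=
  ∃ S : Finset K, ∀ M : ℕ, ∃ ω : (Fin N → Derivation ℂ K K) → K, ω ≠ 0 ∧
    BSec N (fun P => δ P - L P) S M 1 ω

open Classical in
/-- products -/
noncomputable def pr (S T : Finset K) : Finset K := (S ×ˢ T).image fun p => p.1 * p.2

variable {N}

theorem mul_sec {δ L : Place ℂ K → ℚ} {S T : Finset K} {m : ℕ} {f : K}
    {ω : (Fin N → Derivation ℂ K K) → K} (hf : FSec N L S m f)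
    (hω : BSec N (fun P => δ P - L P) T m 1 ω) : BSec N δ (pr S T) m 1 (fun D => f * ω D) := by
  classical
  refine ⟨fun A D => ?_, fun P hP D hD => ?_⟩
  · change f * ω _ = _
    rw [hω.1 A D]
    ring
  · by_cases hf0 : f = 0
    · left
      change f * ω D = 0
      rw [hf0, zero_mul]
    by_cases hD0 : ω D = 0
    · left
      change f * ω D = 0
      rw [hD0, mul_zero]
    right
    obtain ⟨s, hs, hs0, h1⟩ := (hf P hP).resolve_left hf0
    obtain ⟨t, ht, ht0, h2⟩ := (hω.2 P hP D hD).resolve_left hD0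
    refine ⟨s * t, Finset.mem_image.2 ⟨(s, t), Finset.mem_product.2 ⟨hs, ht⟩, rfl⟩,
      mul_ne_zero hs0 ht0, ?_⟩
    change _ ≤ ((P.ord (f * ω D) : ℤ) : ℚ)
    rw [P.ord_mul hf0 hD0, P.ord_mul hs0 ht0]
    push_cast at h1 h2 ⊢
    linarith

theorem num_of {δ L : Place ℂ K → ℚ} {κ : ℕ} (hn : BNum N δ κ) (hR : Rest N δ L) :
    FNum N L κ := by
  obtain ⟨T, hT⟩ := hR
  intro S
  obtain ⟨C, hC⟩ := hn (pr S T)
  refine ⟨C, fun m M hm ⟨f, hlin, hf⟩ => hC m M hm ?_⟩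
  obtain ⟨ω, hω0, hω⟩ := hT m
  obtain ⟨D0, hD0⟩ : ∃ D0, ω D0 ≠ 0 := by
    by_contra hcon
    push Not at hcon
    exact hω0 (funext hcon)
  refine ⟨fun l D => f l * ω D, ?_, fun l => mul_sec (hf l) hω⟩
  refine LinearIndependent.of_comp
    (LinearMap.proj D0 : ((Fin N → Derivation ℂ K K) → K) →ₗ[ℂ] K) ?_
  exact hlin.map' (LinearMap.mulRight ℂ (ω D0))
    (LinearMap.ker_eq_bot.2 (mul_left_injective₀ hD0))

theorem psef_of {δ L : Place ℂ K → ℚ} (hL : FPsef N L) (hR : Rest N δ L) : BPsef N δ := by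
  obtain ⟨S, hS⟩ := hL
  obtain ⟨T, hT⟩ := hR
  refine ⟨pr S T, fun M => ⟨1, le_rfl, ?_⟩⟩
  obtain ⟨f, hf0, hf⟩ := hS M
  obtain ⟨ω, hω0, hω⟩ := hT M
  obtain ⟨D0, hD0⟩ : ∃ D0, ω D0 ≠ 0 := by
    by_contra hcon
    push Not at hcon
    exact hω0 (funext hcon)
  refine ⟨fun D => f * ω D, fun h => ?_, ?_⟩
  · exact mul_ne_zero hf0 hD0 (congrFun h D0)
  · rw [one_mul]
    exact mul_sec hf hω

theorem kod_mono {δ : Place ℂ K → ℚ} {h κ : ℕ} (hk : BKod N δ κ) (hle : h ≤ κ) : BKod N δ h := by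
  obtain ⟨m, hm, ω, hω, D, hD, hai⟩ := hk
  refine ⟨m, hm, fun b => ω (Fin.castLE (by omega) b), fun b => hω _, D, hD, ?_⟩
  exact hai.comp (fun b : Fin h => Fin.castLE hle b) (Fin.castLE_injective hle)

theorem fpsef_of_fkod {L : Place ℂ K → ℚ} {h : ℕ} (hk : FKod N L h) : FPsef N L := by
  classical
  obtain ⟨k, hk0, f, hf0, -, hf⟩ := hk
  refine ⟨{1, (f 0)⁻¹}, fun M => ?_⟩
  obtain ⟨t, r, hr, hM⟩ : ∃ t r : ℕ, r < k ∧ M = k * t + r :=
    ⟨M / k, M % k, Nat.mod_lt M hk0, (Nat.div_add_mod M k).symm⟩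
  refine ⟨f 0 ^ t, pow_ne_zero _ hf0, fun P hP => Or.inr ?_⟩
  obtain ⟨s, hs, -, h1⟩ := (hf 0 P hP).resolve_left hf0
  rw [Finset.mem_singleton] at hs
  rw [hs, P.ord_one] at h1
  have hkq : (0 : ℚ) < k := by exact_mod_cast hk0
  have hr' : (r : ℚ) ≤ k := by exact_mod_cast hr.le
  have hr0 : (0 : ℚ) ≤ (r : ℚ) := Nat.cast_nonneg _
  have ht0 : (0 : ℚ) ≤ (t : ℚ) := Nat.cast_nonneg _
  rw [P.ord_pow, hM]
  push_cast at h1 ⊢
  have h2 : -((k : ℚ) * L P) ≤ P.ord (f 0) := by linarith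
  have h3 : -((t : ℚ) * (k * L P)) ≤ (t : ℚ) * P.ord (f 0) := by
    have := mul_le_mul_of_nonneg_left h2 ht0
    linarith
  rcases le_or_gt 0 (L P) with hL | hL
  · refine ⟨1, by simp, one_ne_zero, ?_⟩
    rw [P.ord_one]
    push_cast
    have := mul_nonneg hr0 hL
    linarith
  · refine ⟨(f 0)⁻¹, by simp, inv_ne_zero hf0, ?_⟩
    rw [P.ord_inv]
    push_cast
    have h4 : (k : ℚ) * L P ≤ (r : ℚ) * L P := mul_le_mul_of_nonpos_right hr' hL.le
    linarith

theorem indep_mon {h : ℕ} {g : Fin h → K} (hg : AlgebraicIndependent ℂ g) (t : ℕ) :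
    LinearIndependent ℂ (fun α : Fin h → Fin (t + 1) => ∏ b, g b ^ (α b : ℕ)) := by
  have h1 := (MvPolynomial.basisMonomials (Fin h) ℂ).linearIndependent.map'
    (MvPolynomial.aeval g : MvPolynomial (Fin h) ℂ →ₐ[ℂ] K).toLinearMap
    (LinearMap.ker_eq_bot.2 hg)
  have h2 := h1.comp (fun α : Fin h → Fin (t + 1) =>
    (Finsupp.equivFunOnFinite.symm fun b => (α b : ℕ) : Fin h →₀ ℕ)) (by
      intro α β hab
      have h3 := Finsupp.equivFunOnFinite.symm.injective hab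
      funext b
      exact Fin.ext (congrFun h3 b))
  have h3 : (fun α : Fin h → Fin (t + 1) => ∏ b, g b ^ (α b : ℕ)) =
      (((MvPolynomial.aeval g : MvPolynomial (Fin h) ℂ →ₐ[ℂ] K).toLinearMap ∘
        MvPolynomial.basisMonomials (Fin h) ℂ) ∘ fun α : Fin h → Fin (t + 1) =>
        (Finsupp.equivFunOnFinite.symm fun b => (α b : ℕ) : Fin h →₀ ℕ)) := by
    funext α
    simp only [Function.comp_apply, MvPolynomial.coe_basisMonomials, AlgHom.toLinearMap_apply,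
      MvPolynomial.aeval_monomial, map_one, one_mul]
    rw [Finsupp.prod_fintype _ _ fun i => pow_zero _]
    rfl
  rw [h3]
  exact h2

theorem kod_le {L : Place ℂ K → ℚ} {h κ : ℕ} (hk : FKod N L h) (hn : FNum N L κ) : h ≤ κ := by
  classical
  by_contra hcon
  push Not at hcon
  obtain ⟨k, hk0, f, hf0, hai, hf⟩ := hk
  obtain ⟨C, hC⟩ := hn {1}
  have hh : 1 ≤ h := by omega
  have hg0 : ∀ b : Fin h, f b.succ ≠ 0 := by
    intro b hb
    exact hai.ne_zero b (by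
      change f b.succ / f 0 = 0
      rw [hb, zero_div])
  -- the bound
  have key : ∀ t : ℕ, 1 ≤ t → t + 1 ≤ C * (k * h) ^ κ := by
    intro t ht
    let e := Fintype.equivFin (Fin h → Fin (t + 1))
    let mon : (Fin h → Fin (t + 1)) → K := fun α =>
      f 0 ^ (h * t) * ∏ b, (f b.succ / f 0) ^ (α b : ℕ)
    have hmon : ∀ α, mon α = f 0 ^ (h * t - ∑ b, (α b : ℕ)) * ∏ b, f b.succ ^ (α b : ℕ) := by
      intro α
      have hle : ∑ b, (α b : ℕ) ≤ h * t := by
        have h1 : ∑ b, (α b : ℕ) ≤ ∑ _b : Fin h, t :=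
          Finset.sum_le_sum fun b _ => by have := (α b).2; omega
        rwa [Finset.sum_const, Finset.card_univ, Fintype.card_fin, smul_eq_mul] at h1
      change f 0 ^ (h * t) * ∏ b, (f b.succ / f 0) ^ (α b : ℕ) = _
      have h2 : ∏ b, (f b.succ / f 0) ^ (α b : ℕ) =
          (∏ b, f b.succ ^ (α b : ℕ)) / f 0 ^ (∑ b, (α b : ℕ)) := by
        rw [← Finset.prod_pow_eq_pow_sum, ← Finset.prod_div_distrib]
        exact Finset.prod_congr rfl fun b _ => div_pow _ _ _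
      rw [h2]
      have h3 : f 0 ^ (h * t) = f 0 ^ (h * t - ∑ b, (α b : ℕ)) * f 0 ^ (∑ b, (α b : ℕ)) := by
        rw [← pow_add, Nat.sub_add_cancel hle]
      rw [h3]
      field_simp
    have hlin : LinearIndependent ℂ mon := by
      have h1 := (indep_mon hai t).map' (LinearMap.mulLeft ℂ (f 0 ^ (h * t)))
        (LinearMap.ker_eq_bot.2 (mul_right_injective₀ (pow_ne_zero _ hf0)))
      exact h1
    have h1 := hC (k * (h * t)) _ (Nat.one_le_iff_ne_zero.2 (by positivity))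
      ⟨fun l => mon (e.symm l), hlin.comp _ e.symm.injective, fun l P hP => Or.inr ?_⟩
    · have h2 : Fintype.card (Fin h → Fin (t + 1)) = (t + 1) ^ h := by
        rw [Fintype.card_fun, Fintype.card_fin, Fintype.card_fin]
      rw [h2] at h1
      have h3 : (t + 1) ^ (κ + 1) ≤ (t + 1) ^ h := Nat.pow_le_pow_right (by omega) hcon
      have h4 : (k * (h * t)) ^ κ ≤ (k * h) ^ κ * (t + 1) ^ κ := by
        rw [← mul_pow]
        refine Nat.pow_le_pow_left ?_ κ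
        rw [mul_assoc k h (t + 1)]
        exact Nat.mul_le_mul_left k (Nat.mul_le_mul_left h (Nat.le_succ t))
      have h5 : (t + 1) ^ κ * (t + 1) ≤ (t + 1) ^ κ * (C * (k * h) ^ κ) := by
        calc (t + 1) ^ κ * (t + 1) = (t + 1) ^ (κ + 1) := (pow_succ _ _).symm
          _ ≤ C * (k * (h * t)) ^ κ := h3.trans h1
          _ ≤ C * ((k * h) ^ κ * (t + 1) ^ κ) := Nat.mul_le_mul_left C h4
          _ = _ := by ring
      exact Nat.le_of_mul_le_mul_left h5 (Nat.pow_pos (by omega))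
    · refine ⟨1, Finset.mem_singleton_self 1, one_ne_zero, ?_⟩
      rw [P.ord_one]
      change _ ≤ ((P.ord (mon (e.symm l)) : ℤ) : ℚ)
      rw [hmon]
      generalize e.symm l = α
      have hle : ∑ b, (α b : ℕ) ≤ h * t := by
        have h1 : ∑ b, (α b : ℕ) ≤ ∑ _b : Fin h, t :=
          Finset.sum_le_sum fun b _ => by have := (α b).2; omega
        rwa [Finset.sum_const, Finset.card_univ, Fintype.card_fin, smul_eq_mul] at h1
      have hord : ∀ b, f b ≠ 0 → -((k : ℚ) * L P) ≤ P.ord (f b) := by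
        intro b hb
        obtain ⟨s, hs, -, h1⟩ := (hf b P hP).resolve_left hb
        rw [Finset.mem_singleton] at hs
        rw [hs, P.ord_one] at h1
        push_cast at h1
        linarith
      rw [P.ord_mul (pow_ne_zero _ hf0) (Finset.prod_ne_zero_iff.2 fun b _ =>
        pow_ne_zero _ (hg0 b)), ord_prod' P _ _ fun b _ => pow_ne_zero _ (hg0 b), P.ord_pow]
      have h6 : ∀ b : Fin h, -((α b : ℕ) : ℚ) * (k * L P) ≤
          ((P.ord (f b.succ ^ (α b : ℕ)) : ℤ) : ℚ) := by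
        intro b
        rw [P.ord_pow]
        push_cast
        have := mul_le_mul_of_nonneg_left (hord _ (hg0 b)) (Nat.cast_nonneg (α b : ℕ) : (0 : ℚ) ≤ _)
        linarith
      have h7 : -((∑ b, (α b : ℕ) : ℕ) : ℚ) * (k * L P) ≤
          ∑ b : Fin h, ((P.ord (f b.succ ^ (α b : ℕ)) : ℤ) : ℚ) := by
        refine le_trans (le_of_eq ?_) (Finset.sum_le_sum fun b _ => h6 b)
        push_cast
        rw [← Finset.sum_mul, Finset.sum_neg_distrib]
      have h8 := mul_le_mul_of_nonneg_left (hord 0 hf0)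
        (Nat.cast_nonneg (h * t - ∑ b, (α b : ℕ)) : (0 : ℚ) ≤ _)
      have h9 : ((h * t - ∑ b, (α b : ℕ) : ℕ) : ℚ) = (h : ℚ) * t - ((∑ b, (α b : ℕ) : ℕ) : ℚ) := by
        rw [Nat.cast_sub hle]
        push_cast
        ring
      rw [Int.cast_add, Int.cast_mul, Int.cast_sum, Int.cast_natCast]
      rw [h9] at h8 ⊢
      push_cast at h7 h8 ⊢
      linarith
  have h1 := key (C * (k * h) ^ κ + 1) (by omega)
  omega

/-- **The Campana-Peternell inequality** for pairs with equal Kodaira and numerical dimension. -/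
theorem cp {δ : Place ℂ K → ℚ} (hab : BPsef N δ → ∃ κ, BKod N δ κ ∧ BNum N δ κ)
    {L : Place ℂ K → ℚ} (hR : Rest N δ L) :
    (∀ h, FKod N L h → BKod N δ h) ∧ (FPsef N L → ∃ κ, BKod N δ κ ∧ FNum N L κ) := by
  constructor
  · intro h hk
    obtain ⟨κ, h1, h2⟩ := hab (psef_of (fpsef_of_fkod hk) hR)
    exact kod_mono h1 (kod_le hk (num_of h2 hR))
  · intro hL
    obtain ⟨κ, h1, h2⟩ := hab (psef_of hL hR)
    exact ⟨κ, h1, num_of h2 hR⟩

end

end Pool.Agent.Q35.CP
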